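import Mathlib
import Pool.Agent.Helper9.NS
import Pool.Agent.Helper26.VC.Ext
import Pool.Agent.Helper83.VF.Eig

/-!
# Decomposition into eigenfunctions
-/

set_option autoImplicit false

namespace VF

open VC VP Function

universe u

variable {k : Type u} [Field k]

lemma lc_zero (X : Variety k) (z : X.Cycles) :
    Finsupp.linearCombination ℤ (fun _ : X.Pt => (0 : k)) z = 0 := by
  induction z using Finsupp.induction_linear with
  | zero => simp
  | add a b ha hb => rw [map_add, ha, hb, add_zero]
  | single p n => rw [Finsupp.linearCombination_single, smul_zero]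

lemma lc_sum (X : Variety k) {ι : Type*} (s : Finset ι) (f : ι → X.Pt → k) (z : X.Cycles) :
    Finsupp.linearCombination ℤ (fun p => ∑ i ∈ s, f i p) z
      = ∑ i ∈ s, Finsupp.linearCombination ℤ (f i) z := by
  induction z using Finsupp.induction_linear with
  | zero => simp
  | add a b ha hb => simp only [map_add, ha, hb, Finset.sum_add_distrib]
  | single p n =>
    simp only [Finsupp.linearCombination_single, Finset.smul_sum]

lemma lc_smul (X : Variety k) (c : k) (f : X.Pt → k) (z : X.Cycles) :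
    Finsupp.linearCombination ℤ (fun p => c * f p) z
      = c * Finsupp.linearCombination ℤ f z := by
  induction z using Finsupp.induction_linear with
  | zero => simp
  | add a b ha hb => rw [map_add, map_add, ha, hb, mul_add]
  | single p n =>
    rw [Finsupp.linearCombination_single, Finsupp.linearCombination_single, mul_smul_comm]

/-- Functions which vanish on the cycles rationally equivalent to zero separate the classes with
rational coefficients. -/
theorem separation [CharZero k] (X : Variety k) (z : X.Cycles)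
    (h : ∀ ψ : X.Pt → k, Kills X ψ → Finsupp.linearCombination ℤ ψ z = 0) :
    ∃ N : ℕ, 0 < N ∧ N • z ∈ X.Rat := by
  rw [← cl_eq_zero_iff]
  by_contra hz
  have h1 : ¬ ∀ f : Module.Dual ℚ (ChowQ X), f (cl X z) = 0 := by
    rw [Module.forall_dual_apply_eq_zero_iff]
    exact hz
  push Not at h1
  obtain ⟨f, hf⟩ := h1
  let ψ : X.Pt → k := fun p => ((f (cl X (Finsupp.single p 1)) : ℚ) : k)
  have key : ∀ w : X.Cycles, Finsupp.linearCombination ℤ ψ w = ((f (cl X w) : ℚ) : k) := by
    intro w
    induction w using Finsupp.induction_linear with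
    | zero => simp
    | add a b ha hb => rw [map_add, ha, hb, map_add, map_add, Rat.cast_add]
    | single p n =>
      rw [Finsupp.linearCombination_single]
      have h2 : (Finsupp.single p n : X.Cycles) = n • Finsupp.single p 1 := by
        rw [Finsupp.smul_single, smul_eq_mul, mul_one]
      rw [h2, map_zsmul, map_zsmul, zsmul_eq_mul, zsmul_eq_mul, Rat.cast_mul, Rat.cast_intCast]
  have h2 := h ψ (fun w hw => by rw [key, cl_of_mem X hw, map_zero, Rat.cast_zero])
  rw [key] at h2
  exact hf (Rat.cast_eq_zero.1 h2)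

/-! ### A full character -/

theorem exists_full [IsAlgClosed k] [CharZero k] (m : ℕ) [NeZero m] :
    ∃ E : AddChar (ZMod m) k, IsFull E := by
  have : NeZero (m : k) := ⟨Nat.cast_ne_zero.2 (NeZero.ne m)⟩
  obtain ⟨ζ, hζ⟩ := HasEnoughRootsOfUnity.exists_primitiveRoot k m
  refine ⟨AddChar.zmodChar m hζ.pow_eq_one, fun c hc => ?_, fun z hz => ?_⟩
  · rw [AddChar.zmodChar_apply] at hc
    have h1 := (hζ.pow_eq_one_iff_dvd _).1 hc
    have h2 : c.val = 0 := Nat.eq_zero_of_dvd_of_lt h1 (ZMod.val_lt c)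
    exact (ZMod.val_eq_zero c).1 h2
  · obtain ⟨i, hi, h⟩ := hζ.eq_pow_of_pow_eq_one hz
    exact ⟨(i : ZMod m), by rw [AddChar.zmodChar_apply']; exact h⟩

section decomp

variable {m : ℕ} [NeZero m] {n : ℕ}

/-- The pairing of characters and group elements. -/
def pair (χ x : Fin n → Fin 4 → ZMod m) : ZMod m := ∑ i, ∑ j, χ i j * x i j

lemma pair_add (χ x y : Fin n → Fin 4 → ZMod m) : pair χ (x + y) = pair χ x + pair χ y := by
  simp [pair, mul_add, Finset.sum_add_distrib]

lemma pair_add_left (χ χ' x : Fin n → Fin 4 → ZMod m) :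
    pair (χ + χ') x = pair χ x + pair χ' x := by
  simp [pair, add_mul, Finset.sum_add_distrib]

lemma pair_single (χ : Fin n → Fin 4 → ZMod m) (i : Fin n) (y : Fin 4 → ZMod m) :
    pair χ (Pi.single i y) = ∑ j, χ i j * y j := by
  unfold pair
  rw [Finset.sum_eq_single i]
  · simp
  · intro l _ hl
    rw [Pi.single_eq_of_ne hl]
    simp
  · intro h
    exact absurd (Finset.mem_univ i) h

lemma pair_swap (χ x : Fin n → Fin 4 → ZMod m) (i j : Fin n) (h : χ i = χ j) :
    pair χ (fun l => x (Equiv.swap i j l)) = pair χ x := by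
  unfold pair
  rw [← Equiv.sum_comp (Equiv.swap i j) (fun l => ∑ r, χ l r * x l r)]
  refine Finset.sum_congr rfl fun l _ => ?_
  have h1 : χ (Equiv.swap i j l) = χ l := by
    by_cases hi : l = i
    · rw [hi, Equiv.swap_apply_left, h]
    · by_cases hj : l = j
      · rw [hj, Equiv.swap_apply_right, h]
      · rw [Equiv.swap_apply_of_ne_of_ne hi hj]
  rw [h1]

/-- Orthogonality of characters. -/
theorem sum_char_eq {E : AddChar (ZMod m) k} (hE : IsFull E) (x : Fin n → Fin 4 → ZMod m) :
    ∑ χ : Fin n → Fin 4 → ZMod m, E (-pair χ x)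
      = if x = 0 then (Fintype.card (Fin n → Fin 4 → ZMod m) : k) else 0 := by
  classical
  let φ : (Fin n → Fin 4 → ZMod m) →+ ZMod m :=
    { toFun := fun χ => -pair χ x
      map_zero' := by simp [pair]
      map_add' := fun a b => by rw [pair_add_left]; ring }
  have h1 : ∑ χ : Fin n → Fin 4 → ZMod m, E (-pair χ x)
      = ∑ χ, (E.compAddMonoidHom φ) χ := rfl
  rw [h1, AddChar.sum_eq_ite]
  have h2 : E.compAddMonoidHom φ = 0 ↔ x = 0 := by
    constructor
    · intro h
      by_contra hx
      obtain ⟨i, hi⟩ := Function.ne_iff.mp hx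
      obtain ⟨j, hj⟩ := Function.ne_iff.mp hi
      have h3 := DFunLike.congr_fun h (Pi.single i (Pi.single j 1))
      have h4 : pair (Pi.single i (Pi.single j 1)) x = x i j := by
        unfold pair
        rw [Finset.sum_eq_single i]
        · rw [Pi.single_eq_same, Finset.sum_eq_single j]
          · rw [Pi.single_eq_same, one_mul]
          · intro l _ hl
            rw [Pi.single_eq_of_ne hl, zero_mul]
          · intro h
            exact absurd (Finset.mem_univ j) h
        · intro l _ hl
          rw [Pi.single_eq_of_ne hl]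
          simp
        · intro h
          exact absurd (Finset.mem_univ i) h
      have h5 : E (-x i j) = 1 := by
        rw [← h4]
        exact h3
      have h6 := hE.1 _ h5
      exact hj (neg_eq_zero.1 h6)
    · rintro rfl
      ext χ
      simp [φ, pair]
  simp only [h2]

variable [IsAlgClosed k] [CharZero k]

/-- The twist of all the coordinates. -/
noncomputable def TW (E : AddChar (ZMod m) k) (x : Fin n → Fin 4 → ZMod m)
    (p : ((fermat k 4 m).pow n).Pt) : ((fermat k 4 m).pow n).Pt := fun i => tw E (x i) (p i)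

lemma induced_pow {X Y : Variety k} (f : Fin n → X.Pt → Y.Pt) (h : ∀ i, Induced X Y (f i)) :
    Induced (X.pow n) (Y.pow n) (fun p i => f i (p i)) := by
  intro K _ _ hK c
  choose d hd using fun i => h i K hK (c i)
  exact ⟨d, fun v => funext fun i => hd i v⟩

lemma induced_perm {X : Variety k} (σ : Equiv.Perm (Fin n)) :
    Induced (X.pow n) (X.pow n) (fun p i => p (σ i)) := by
  intro K _ _ hK c
  exact ⟨fun i => c (σ i), fun v => rfl⟩

lemma induced_TW (E : AddChar (ZMod m) k) (x : Fin n → Fin 4 → ZMod m) :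
    Induced ((fermat k 4 m).pow n) ((fermat k 4 m).pow n) (TW E x) :=
  induced_pow _ fun i => induced_mono (isMono_char E (x i))

lemma tw_tw (E : AddChar (ZMod m) k) (x y : Fin 4 → ZMod m) (p : FermatPt k 4 m) :
    tw E x (tw E y p) = tw E (x + y) p := by
  obtain ⟨a, ha, h, rfl⟩ := exists_pt p
  unfold tw
  rw [mono_pt', mono_pt', mono_pt', pt_eq_iff]
  refine ⟨1, fun i => ?_⟩
  rw [Pi.add_apply, AddChar.map_add_eq_mul, one_mul]
  simp only [id]
  ring

lemma tw_zero (E : AddChar (ZMod m) k) (p : FermatPt k 4 m) : tw E 0 p = p := by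
  obtain ⟨a, ha, h, rfl⟩ := exists_pt p
  unfold tw
  rw [mono_pt', pt_eq_iff]
  refine ⟨1, fun i => ?_⟩
  simp

/-- The component of `Φ` for the character `χ`. -/
noncomputable def comp (E : AddChar (ZMod m) k) (Φ : ((fermat k 4 m).pow n).Pt → k)
    (χ : Fin n → Fin 4 → ZMod m) (p : ((fermat k 4 m).pow n).Pt) : k :=
  (Fintype.card (Fin n → Fin 4 → ZMod m) : k)⁻¹ *
    ∑ x : Fin n → Fin 4 → ZMod m, E (-pair χ x) * Φ (TW E x p)

lemma sum_comp_eq {E : AddChar (ZMod m) k} (hE : IsFull E)
    (Φ : ((fermat k 4 m).pow n).Pt → k) (p : ((fermat k 4 m).pow n).Pt) :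
    ∑ χ, comp E Φ χ p = Φ p := by
  classical
  unfold comp
  rw [← Finset.mul_sum, Finset.sum_comm]
  have h1 : ∀ x : Fin n → Fin 4 → ZMod m, ∑ χ : Fin n → Fin 4 → ZMod m,
      E (-pair χ x) * Φ (TW E x p) = (if x = 0 then
        (Fintype.card (Fin n → Fin 4 → ZMod m) : k) else 0) * Φ (TW E x p) := by
    intro x
    rw [← Finset.sum_mul, sum_char_eq hE]
  rw [Finset.sum_congr rfl fun x _ => h1 x]
  have h2 : TW E 0 p = p := funext fun i => tw_zero E (p i)
  have h3 : (Fintype.card (Fin n → Fin 4 → ZMod m) : k) ≠ 0 :=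
    Nat.cast_ne_zero.2 Fintype.card_ne_zero
  rw [Finset.sum_eq_single 0]
  · rw [if_pos rfl, h2, ← mul_assoc, inv_mul_cancel₀ h3, one_mul]
  · intro x _ hx
    rw [if_neg hx, zero_mul]
  · intro h
    exact absurd (Finset.mem_univ _) h

lemma eig_comp {E : AddChar (ZMod m) k} {Φ : ((fermat k 4 m).pow n).Pt → k}
    (hΦ : Kills ((fermat k 4 m).pow n) Φ)
    (halt : ∀ i j, i ≠ j → ∀ p : ((fermat k 4 m).pow n).Pt,
      Φ (fun l => p (Equiv.swap i j l)) = -Φ p) (χ : Fin n → Fin 4 → ZMod m) :
    Eig E χ (comp E Φ χ) := by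
  classical
  refine ⟨?_, ?_, ?_⟩
  · refine Kills.smul _ (Kills.sum _ fun x _ => Kills.smul _ ?_)
    exact hΦ.comp (induced_TW E x)
  · intro p i y
    unfold comp
    rw [mul_left_comm]
    congr 1
    rw [Finset.mul_sum, ← Equiv.sum_comp (Equiv.addRight (Pi.single i y))
      (fun x => E (∑ j, χ i j * y j) * (E (-pair χ x) * Φ (TW E x p)))]
    refine Finset.sum_congr rfl fun x _ => ?_
    have h1 : TW E x (update p i (tw E y (p i))) = TW E (x + Pi.single i y) p := by
      funext l
      unfold TW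
      by_cases hl : l = i
      · subst hl
        rw [update_self, tw_tw, Pi.add_apply, Pi.single_eq_same]
      · rw [update_of_ne hl, Pi.add_apply, Pi.single_eq_of_ne hl, add_zero]
    rw [Equiv.coe_addRight, h1, pair_add, pair_single, ← mul_assoc, ← AddChar.map_add_eq_mul]
    congr 2
    ring
  · intro i j hij hχ p
    unfold comp
    rw [← mul_neg]
    congr 1
    rw [← Finset.sum_neg_distrib,
      ← Equiv.sum_comp (Equiv.arrowCongr (Equiv.swap i j) (Equiv.refl (Fin 4 → ZMod m)))
        (fun x => -(E (-pair χ x) * Φ (TW E x p)))]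
    refine Finset.sum_congr rfl fun x _ => ?_
    have h1 : (Equiv.arrowCongr (Equiv.swap i j) (Equiv.refl (Fin 4 → ZMod m))) x
        = fun l => x (Equiv.swap i j l) := by
      funext l
      simp [Equiv.arrowCongr_apply]
    have h2 : TW E x (fun l => p (Equiv.swap i j l))
        = fun l => TW E (fun l => x (Equiv.swap i j l)) p (Equiv.swap i j l) := by
      funext l
      change tw E (x l) (p (Equiv.swap i j l))
        = tw E (x (Equiv.swap i j (Equiv.swap i j l))) (p (Equiv.swap i j l))
      rw [Equiv.swap_apply_self]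
    rw [h1, h2, halt i j hij, pair_swap χ x i j hχ, mul_neg]

/-! ### The alternating part -/

/-- The alternating part of a function. -/
noncomputable def alt (Φ : ((fermat k 4 m).pow n).Pt → k) (p : ((fermat k 4 m).pow n).Pt) : k :=
  ∑ σ : Equiv.Perm (Fin n), ((Equiv.Perm.sign σ : ℤˣ) : ℤ) * Φ (fun i => p (σ i))

lemma kills_alt {Φ : ((fermat k 4 m).pow n).Pt → k} (hΦ : Kills ((fermat k 4 m).pow n) Φ) :
    Kills ((fermat k 4 m).pow n) (alt Φ) :=
  Kills.sum _ fun σ _ => Kills.smul _ (hΦ.comp (induced_perm σ))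

lemma alt_swap (Φ : ((fermat k 4 m).pow n).Pt → k) (i j : Fin n) (hij : i ≠ j)
    (p : ((fermat k 4 m).pow n).Pt) : alt Φ (fun l => p (Equiv.swap i j l)) = -alt Φ p := by
  unfold alt
  rw [← Finset.sum_neg_distrib, ← Equiv.sum_comp (Equiv.mulLeft (Equiv.swap i j))
    (fun σ => -((((Equiv.Perm.sign σ : ℤˣ) : ℤ) : k) * Φ (fun i => p (σ i))))]
  refine Finset.sum_congr rfl fun σ _ => ?_
  rw [Equiv.coe_mulLeft, Equiv.Perm.sign_mul, Equiv.Perm.sign_swap hij]
  simp [Equiv.Perm.mul_apply]

lemma extProd_perm {X : Variety k} (a : Fin n → X.Cycles) (σ : Equiv.Perm (Fin n)) :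
    extProd (fun i => a (σ i))
      = Finsupp.mapDomain (fun p : Fin n → X.Pt => fun i => p (σ i)) (extProd a) := by
  have hinj : Function.Injective (fun p : Fin n → X.Pt => fun i => p (σ i)) := by
    intro p q h
    funext i
    have := congrFun h (σ.symm i)
    simpa using this
  ext p
  have h1 : p = (fun p : Fin n → X.Pt => fun i => p (σ i)) (fun i => p (σ.symm i)) := by
    funext i
    simp
  have h2 : ∀ (a : Fin n → X.Cycles) (p : Fin n → X.Pt), extProd a p = ∏ i, a i (p i) :=
    fun a p => ext'_apply a p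
  have h3 : (Finsupp.mapDomain (fun p : Fin n → X.Pt => fun i => p (σ i)) (extProd a)) p
      = extProd a (fun i => p (σ.symm i)) := by
    conv_lhs => rw [h1]
    exact Finsupp.mapDomain_apply hinj (extProd a) (fun i => p (σ.symm i))
  rw [h3, h2, h2, ← Equiv.prod_comp σ (fun i => a i (p (σ.symm i)))]
  simp

lemma lc_alt (Φ : ((fermat k 4 m).pow n).Pt → k) (a : Fin n → (fermat k 4 m).Cycles) :
    Finsupp.linearCombination ℤ Φ
      (∑ σ : Equiv.Perm (Fin n), ((Equiv.Perm.sign σ : ℤˣ) : ℤ) • extProd (fun i => a (σ i)))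
      = Finsupp.linearCombination ℤ (alt Φ) (extProd a) := by
  unfold alt
  rw [lc_sum ((fermat k 4 m).pow n), map_sum]
  refine Finset.sum_congr rfl fun σ _ => ?_
  rw [map_zsmul, lc_smul ((fermat k 4 m).pow n), extProd_perm, Finsupp.linearCombination_mapDomain,
    zsmul_eq_mul]
  rfl

/-- The reduction to eigenfunctions. -/
theorem assembly (n : ℕ) (a : Fin n → (fermat k 4 m).Cycles)
    (H : ∀ E : AddChar (ZMod m) k, IsFull E → ∀ (χ : Fin n → Fin 4 → ZMod m)
      (Ψ : ((fermat k 4 m).pow n).Pt → k), Eig E χ Ψ →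
      Finsupp.linearCombination ℤ Ψ (extProd a) = 0) :
    ∃ N : ℕ, 0 < N ∧ N • ∑ σ : Equiv.Perm (Fin n), ((Equiv.Perm.sign σ : ℤˣ) : ℤ) •
      extProd (fun i => a (σ i)) ∈ ((fermat k 4 m).pow n).Rat := by
  refine separation ((fermat k 4 m).pow n) _ fun Φ hΦ => ?_
  obtain ⟨E, hE⟩ := exists_full (k := k) m
  rw [lc_alt]
  have h1 : alt Φ = fun p => ∑ χ, comp E (alt Φ) χ p := by
    funext p
    rw [sum_comp_eq hE]
  rw [h1, lc_sum ((fermat k 4 m).pow n)]
  refine Finset.sum_eq_zero fun χ _ => ?_
  exact H E hE χ _ (eig_comp (kills_alt hΦ) (fun i j hij p => alt_swap Φ i j hij p) χ)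

end decomp

end VF
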