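import Mathlib

/-!
# Combinatorics of the characters of the Fermat surface
-/

set_option autoImplicit false

namespace Pool.Agent.Helper70.VF

variable {m : ℕ}

/-- The zero sum triple attached to two entries of a quadruple. -/
def triple (d : Fin 4 → ZMod m) (j k : Fin 4) : Fin 3 → ZMod m := ![d j, d k, -(d j + d k)]

/-- Some zero sum triple of `d` is, up to order, the opposite of such a triple of `d'`. -/
def Rel (d d' : Fin 4 → ZMod m) : Prop :=
  ∃ (j k j' k' : Fin 4) (π : Equiv.Perm (Fin 3)), j ≠ k ∧ j' ≠ k' ∧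
    ∀ i, triple d j k (π i) = -triple d' j' k' i

theorem Rel.symm {d d' : Fin 4 → ZMod m} (h : Rel d d') : Rel d' d := by
  obtain ⟨j, k, j', k', π, h1, h2, h3⟩ := h
  refine ⟨j', k', j, k, π.symm, h2, h1, fun i => ?_⟩
  have := h3 (π.symm i)
  rw [Equiv.apply_symm_apply] at this
  rw [this, neg_neg]

/-- The six quadruples of a class. -/
def Q (t : Fin 6) (b : Fin 4 → ZMod m) : Fin 4 → ZMod m :=
  ![b, -b,
    ![-b 0, b 1, b 0 + b 2, b 0 + b 3], -![-b 0, b 1, b 0 + b 2, b 0 + b 3],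
    ![b 0 + b 2, b 1 + b 2, -b 2, b 3], -![b 0 + b 2, b 1 + b 2, -b 2, b 3]] t

theorem rel_0_1 (b : Fin 4 → ZMod m) (hb : b 0 + b 1 + b 2 + b 3 = 0) :
    Rel (Q 0 b) (Q 1 b) := by
  refine ⟨3, 2, 3, 2, 1, by decide, by decide, fun i => ?_⟩
  have hp : ∀ i, (1 : Equiv.Perm (Fin 3)) i = ![0, 1, 2] i := by decide
  rw [hp]
  fin_cases i <;> simp [triple, Q] <;> first | done | ring1 | linear_combination hb | linear_combination -hb

theorem rel_0_2 (b : Fin 4 → ZMod m) (hb : b 0 + b 1 + b 2 + b 3 = 0) :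
    Rel (Q 0 b) (Q 2 b) := by
  refine ⟨0, 2, 0, 2, (Equiv.swap 1 2), by decide, by decide, fun i => ?_⟩
  have hp : ∀ i, ((Equiv.swap 1 2) : Equiv.Perm (Fin 3)) i = ![0, 2, 1] i := by decide
  rw [hp]
  fin_cases i <;> simp [triple, Q] <;> first | done | ring1 | linear_combination hb | linear_combination -hb

theorem rel_0_3 (b : Fin 4 → ZMod m) (hb : b 0 + b 1 + b 2 + b 3 = 0) :
    Rel (Q 0 b) (Q 3 b) := by
  refine ⟨1, 2, 1, 3, (Equiv.swap 1 2), by decide, by decide, fun i => ?_⟩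
  have hp : ∀ i, ((Equiv.swap 1 2) : Equiv.Perm (Fin 3)) i = ![0, 2, 1] i := by decide
  rw [hp]
  fin_cases i <;> simp [triple, Q] <;> first | done | ring1 | linear_combination hb | linear_combination -hb

theorem rel_0_4 (b : Fin 4 → ZMod m) (hb : b 0 + b 1 + b 2 + b 3 = 0) :
    Rel (Q 0 b) (Q 4 b) := by
  refine ⟨0, 2, 0, 2, (Equiv.swap 0 2), by decide, by decide, fun i => ?_⟩
  have hp : ∀ i, ((Equiv.swap 0 2) : Equiv.Perm (Fin 3)) i = ![2, 1, 0] i := by decide
  rw [hp]
  fin_cases i <;> simp [triple, Q] <;> first | done | ring1 | linear_combination hb | linear_combination -hb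

theorem rel_0_5 (b : Fin 4 → ZMod m) (hb : b 0 + b 1 + b 2 + b 3 = 0) :
    Rel (Q 0 b) (Q 5 b) := by
  refine ⟨0, 3, 1, 3, (Equiv.swap 0 2), by decide, by decide, fun i => ?_⟩
  have hp : ∀ i, ((Equiv.swap 0 2) : Equiv.Perm (Fin 3)) i = ![2, 1, 0] i := by decide
  rw [hp]
  fin_cases i <;> simp [triple, Q] <;> first | done | ring1 | linear_combination hb | linear_combination -hb

theorem rel_1_2 (b : Fin 4 → ZMod m) (hb : b 0 + b 1 + b 2 + b 3 = 0) :
    Rel (Q 1 b) (Q 2 b) := by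
  refine ⟨1, 2, 1, 3, (Equiv.swap 1 2), by decide, by decide, fun i => ?_⟩
  have hp : ∀ i, ((Equiv.swap 1 2) : Equiv.Perm (Fin 3)) i = ![0, 2, 1] i := by decide
  rw [hp]
  fin_cases i <;> simp [triple, Q] <;> first | done | ring1 | linear_combination hb | linear_combination -hb

theorem rel_1_3 (b : Fin 4 → ZMod m) (hb : b 0 + b 1 + b 2 + b 3 = 0) :
    Rel (Q 1 b) (Q 3 b) := by
  refine ⟨0, 2, 0, 2, (Equiv.swap 1 2), by decide, by decide, fun i => ?_⟩
  have hp : ∀ i, ((Equiv.swap 1 2) : Equiv.Perm (Fin 3)) i = ![0, 2, 1] i := by decide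
  rw [hp]
  fin_cases i <;> simp [triple, Q] <;> first | done | ring1 | linear_combination hb | linear_combination -hb

theorem rel_1_4 (b : Fin 4 → ZMod m) (hb : b 0 + b 1 + b 2 + b 3 = 0) :
    Rel (Q 1 b) (Q 4 b) := by
  refine ⟨0, 3, 1, 3, (Equiv.swap 0 2), by decide, by decide, fun i => ?_⟩
  have hp : ∀ i, ((Equiv.swap 0 2) : Equiv.Perm (Fin 3)) i = ![2, 1, 0] i := by decide
  rw [hp]
  fin_cases i <;> simp [triple, Q] <;> first | done | ring1 | linear_combination hb | linear_combination -hb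

theorem rel_1_5 (b : Fin 4 → ZMod m) (hb : b 0 + b 1 + b 2 + b 3 = 0) :
    Rel (Q 1 b) (Q 5 b) := by
  refine ⟨0, 2, 0, 2, (Equiv.swap 0 2), by decide, by decide, fun i => ?_⟩
  have hp : ∀ i, ((Equiv.swap 0 2) : Equiv.Perm (Fin 3)) i = ![2, 1, 0] i := by decide
  rw [hp]
  fin_cases i <;> simp [triple, Q] <;> first | done | ring1 | linear_combination hb | linear_combination -hb

theorem rel_2_3 (b : Fin 4 → ZMod m) (hb : b 0 + b 1 + b 2 + b 3 = 0) :
    Rel (Q 2 b) (Q 3 b) := by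
  refine ⟨3, 2, 3, 2, 1, by decide, by decide, fun i => ?_⟩
  have hp : ∀ i, (1 : Equiv.Perm (Fin 3)) i = ![0, 1, 2] i := by decide
  rw [hp]
  fin_cases i <;> simp [triple, Q] <;> first | done | ring1 | linear_combination hb | linear_combination -hb

theorem rel_2_4 (b : Fin 4 → ZMod m) (hb : b 0 + b 1 + b 2 + b 3 = 0) :
    Rel (Q 2 b) (Q 4 b) := by
  refine ⟨0, 3, 1, 3, (finRotate 3), by decide, by decide, fun i => ?_⟩
  have hp : ∀ i, ((finRotate 3) : Equiv.Perm (Fin 3)) i = ![1, 2, 0] i := by decide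
  rw [hp]
  fin_cases i <;> simp [triple, Q] <;> first | done | ring1 | linear_combination hb | linear_combination -hb

theorem rel_2_5 (b : Fin 4 → ZMod m) (hb : b 0 + b 1 + b 2 + b 3 = 0) :
    Rel (Q 2 b) (Q 5 b) := by
  refine ⟨0, 2, 0, 2, (finRotate 3), by decide, by decide, fun i => ?_⟩
  have hp : ∀ i, ((finRotate 3) : Equiv.Perm (Fin 3)) i = ![1, 2, 0] i := by decide
  rw [hp]
  fin_cases i <;> simp [triple, Q] <;> first | done | ring1 | linear_combination hb | linear_combination -hb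

theorem rel_3_4 (b : Fin 4 → ZMod m) (hb : b 0 + b 1 + b 2 + b 3 = 0) :
    Rel (Q 3 b) (Q 4 b) := by
  refine ⟨0, 2, 0, 2, (finRotate 3), by decide, by decide, fun i => ?_⟩
  have hp : ∀ i, ((finRotate 3) : Equiv.Perm (Fin 3)) i = ![1, 2, 0] i := by decide
  rw [hp]
  fin_cases i <;> simp [triple, Q] <;> first | done | ring1 | linear_combination hb | linear_combination -hb

theorem rel_3_5 (b : Fin 4 → ZMod m) (hb : b 0 + b 1 + b 2 + b 3 = 0) :
    Rel (Q 3 b) (Q 5 b) := by
  refine ⟨0, 3, 1, 3, (finRotate 3), by decide, by decide, fun i => ?_⟩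
  have hp : ∀ i, ((finRotate 3) : Equiv.Perm (Fin 3)) i = ![1, 2, 0] i := by decide
  rw [hp]
  fin_cases i <;> simp [triple, Q] <;> first | done | ring1 | linear_combination hb | linear_combination -hb

theorem rel_4_5 (b : Fin 4 → ZMod m) (hb : b 0 + b 1 + b 2 + b 3 = 0) :
    Rel (Q 4 b) (Q 5 b) := by
  refine ⟨3, 2, 3, 2, 1, by decide, by decide, fun i => ?_⟩
  have hp : ∀ i, (1 : Equiv.Perm (Fin 3)) i = ![0, 1, 2] i := by decide
  rw [hp]
  fin_cases i <;> simp [triple, Q] <;> first | done | ring1 | linear_combination hb | linear_combination -hb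

theorem rel_Q (b : Fin 4 → ZMod m) (hb : b 0 + b 1 + b 2 + b 3 = 0) (s t : Fin 6) (h : s ≠ t) :
    Rel (Q s b) (Q t b) := by
  have key : ∀ s t : Fin 6, s < t → Rel (Q s b) (Q t b) := by
    intro s t hst
    fin_cases s <;> fin_cases t <;> first
      | exact absurd hst (by decide)
      | exact rel_0_1 b hb
      | exact rel_0_2 b hb
      | exact rel_0_3 b hb
      | exact rel_0_4 b hb
      | exact rel_0_5 b hb
      | exact rel_1_2 b hb
      | exact rel_1_3 b hb
      | exact rel_1_4 b hb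
      | exact rel_1_5 b hb
      | exact rel_2_3 b hb
      | exact rel_2_4 b hb
      | exact rel_2_5 b hb
      | exact rel_3_4 b hb
      | exact rel_3_5 b hb
      | exact rel_4_5 b hb
  rcases lt_or_gt_of_ne h with h1 | h1
  · exact key s t h1
  · exact (key t s h1).symm

/-- A quadruple of sum zero without zero entry and without zero sum pair. -/
structure Good (d : Fin 4 → ZMod m) : Prop where
  sum : d 0 + d 1 + d 2 + d 3 = 0
  ne : ∀ i, d i ≠ 0
  pair : ∀ i j, i ≠ j → d i + d j ≠ 0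

theorem exists_class [NeZero m] (d : Fin 4 → ZMod m) (h : Good d) :
    ∃ (B : Fin 4 → ℕ) (t : Fin 6), (∀ i, 1 ≤ B i) ∧ B 0 + B 1 + B 2 + B 3 = m ∧
      d = Q t fun i => (B i : ZMod m) := by
  obtain ⟨x, hx⟩ : ∃ x : Fin 4 → ℕ, ∀ i, x i = (d i).val := ⟨_, fun _ => rfl⟩
  have hd : ∀ i, d i = (x i : ZMod m) := fun i => by rw [hx, ZMod.natCast_zmod_val]
  have hlt : ∀ i, x i < m := fun i => by rw [hx]; exact ZMod.val_lt _
  have hpos : ∀ i, 1 ≤ x i := fun i => by
    rw [hx]
    exact Nat.pos_of_ne_zero fun h0 => h.ne i ((ZMod.val_eq_zero _).1 h0)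
  have hp : ∀ i j, i ≠ j → x i + x j ≠ m := by
    intro i j hij hs
    apply h.pair i j hij
    rw [hd i, hd j, ← Nat.cast_add, hs, ZMod.natCast_self]
  have hm : (m : ZMod m) = 0 := ZMod.natCast_self m
  have hsum : m ∣ x 0 + x 1 + x 2 + x 3 := by
    rw [← ZMod.natCast_eq_zero_iff]
    push_cast
    rw [← hd, ← hd, ← hd, ← hd, h.sum]
  obtain ⟨k, hk⟩ := hsum
  have h0 := hlt 0; have h1 := hlt 1; have h2 := hlt 2; have h3 := hlt 3
  have p0 := hpos 0; have p1 := hpos 1; have p2 := hpos 2; have p3 := hpos 3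
  have q2 := hp 0 2 (by decide); have q3 := hp 0 3 (by decide)
  have hk4 : k < 4 := by
    by_contra hcon
    have : m * 4 ≤ m * k := Nat.mul_le_mul_left m (by omega)
    omega
  have hk0 : k ≠ 0 := by
    rintro rfl
    rw [mul_zero] at hk
    omega
  -- a helper for the conclusion
  have fin : ∀ (B : Fin 4 → ℕ) (t : Fin 6), (∀ i, 1 ≤ B i) → B 0 + B 1 + B 2 + B 3 = m →
      (∀ i, d i = Q t (fun i => (B i : ZMod m)) i) → ∃ (B : Fin 4 → ℕ) (t : Fin 6),
      (∀ i, 1 ≤ B i) ∧ B 0 + B 1 + B 2 + B 3 = m ∧ d = Q t fun i => (B i : ZMod m) :=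
    fun B t hB hs hQ => ⟨B, t, hB, hs, funext hQ⟩
  have hk' : k = 1 ∨ k = 2 ∨ k = 3 := by omega
  rcases hk' with rfl | rfl | rfl
  · refine fin x 0 hpos (by omega) fun i => ?_
    rw [hd]
    rfl
  · have c01 : (x 0 : ZMod m) + x 1 + x 2 + x 3 = 0 := by
      rw [← hd, ← hd, ← hd, ← hd, h.sum]
    rcases Nat.lt_or_ge m (x 0 + x 2) with P | P <;> rcases Nat.lt_or_ge m (x 0 + x 3) with S | S
    · refine fin ![m - x 0, x 1, x 0 + x 2 - m, x 0 + x 3 - m] 2 ?_ ?_ ?_
      · intro i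
        fin_cases i <;> simp <;> omega
      · simp
        omega
      · intro i
        rw [hd]
        have e0 : ((m - x 0 : ℕ) : ZMod m) = -x 0 := by
          rw [Nat.cast_sub h0.le, hm, zero_sub]
        have e2 : ((x 0 + x 2 - m : ℕ) : ZMod m) = x 0 + x 2 := by
          rw [Nat.cast_sub P.le, hm, sub_zero, Nat.cast_add]
        have e3 : ((x 0 + x 3 - m : ℕ) : ZMod m) = x 0 + x 3 := by
          rw [Nat.cast_sub S.le, hm, sub_zero, Nat.cast_add]
        fin_cases i <;> simp [Q, e0, e2, e3]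
    · refine fin ![x 0 + x 2 - m, x 1 + x 2 - m, m - x 2, x 3] 4 ?_ ?_ ?_
      · intro i
        fin_cases i <;> simp <;> omega
      · simp
        omega
      · intro i
        rw [hd]
        have e0 : ((x 0 + x 2 - m : ℕ) : ZMod m) = x 0 + x 2 := by
          rw [Nat.cast_sub P.le, hm, sub_zero, Nat.cast_add]
        have e1 : ((x 1 + x 2 - m : ℕ) : ZMod m) = x 1 + x 2 := by
          rw [Nat.cast_sub (by omega), hm, sub_zero, Nat.cast_add]
        have e2 : ((m - x 2 : ℕ) : ZMod m) = -x 2 := by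
          rw [Nat.cast_sub h2.le, hm, zero_sub]
        fin_cases i <;> simp [Q, e0, e1, e2]
    · refine fin ![m - x 0 - x 2, m - x 1 - x 2, x 2, m - x 3] 5 ?_ ?_ ?_
      · intro i
        fin_cases i <;> simp <;> omega
      · simp
        omega
      · intro i
        rw [hd]
        have e0 : ((m - x 0 - x 2 : ℕ) : ZMod m) = -x 0 - x 2 := by
          rw [Nat.cast_sub (by omega), Nat.cast_sub h0.le, hm, zero_sub]
        have e1 : ((m - x 1 - x 2 : ℕ) : ZMod m) = -x 1 - x 2 := by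
          rw [Nat.cast_sub (by omega), Nat.cast_sub h1.le, hm, zero_sub]
        have e3 : ((m - x 3 : ℕ) : ZMod m) = -x 3 := by
          rw [Nat.cast_sub h3.le, hm, zero_sub]
        fin_cases i <;> simp [Q, e0, e1, e3]
    · refine fin ![x 0, m - x 1, m - x 0 - x 2, m - x 0 - x 3] 3 ?_ ?_ ?_
      · intro i
        fin_cases i <;> simp <;> omega
      · simp
        omega
      · intro i
        rw [hd]
        have e1 : ((m - x 1 : ℕ) : ZMod m) = -x 1 := by
          rw [Nat.cast_sub h1.le, hm, zero_sub]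
        have e2 : ((m - x 0 - x 2 : ℕ) : ZMod m) = -x 0 - x 2 := by
          rw [Nat.cast_sub (by omega), Nat.cast_sub h0.le, hm, zero_sub]
        have e3 : ((m - x 0 - x 3 : ℕ) : ZMod m) = -x 0 - x 3 := by
          rw [Nat.cast_sub (by omega), Nat.cast_sub h0.le, hm, zero_sub]
        fin_cases i <;> simp [Q, e1, e2, e3]
  · refine fin (fun i => m - x i) 1 (fun i => by have := hlt i; omega) (by omega) fun i => ?_
    rw [hd]
    have e : ((m - x i : ℕ) : ZMod m) = -x i := by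
      rw [Nat.cast_sub (hlt i).le, hm, zero_sub]
    simp [Q, e]

/-- The pigeonhole argument. -/
theorem pigeon [NeZero m] (n : ℕ) (hn : (m - 1).choose 3 < n) (d : Fin n → Fin 4 → ZMod m)
    (h : ∀ i, Good (d i)) : ∃ i j, i ≠ j ∧ (d i = d j ∨ Rel (d i) (d j)) := by
  classical
  choose B t hB hs hQ using fun i => exists_class (d i) (h i)
  let f : Fin n → (Fin 4 →₀ ℕ) := fun i => Finsupp.equivFunOnFinite.symm fun j => B i j - 1
  have hf : ∀ i ∈ (Finset.univ : Finset (Fin n)),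
      f i ∈ Finset.finsuppAntidiag (Finset.univ : Finset (Fin 4)) (m - 4) := by
    intro i _
    rw [Finset.mem_finsuppAntidiag]
    refine ⟨?_, Finset.subset_univ _⟩
    have := hs i
    have b0 := hB i 0; have b1 := hB i 1; have b2 := hB i 2; have b3 := hB i 3
    simp only [f, Fin.sum_univ_four, Finsupp.equivFunOnFinite_symm_apply_apply]
    omega
  have h4 : 4 ≤ m := by
    have hn0 : 0 < n := by omega
    have := hs ⟨0, hn0⟩
    have b0 := hB ⟨0, hn0⟩ 0; have b1 := hB ⟨0, hn0⟩ 1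
    have b2 := hB ⟨0, hn0⟩ 2; have b3 := hB ⟨0, hn0⟩ 3
    omega
  have hcard : (Finset.finsuppAntidiag (Finset.univ : Finset (Fin 4)) (m - 4)).card
      = (m - 1).choose 3 := by
    rw [Finset.card_finsuppAntidiag_nat_eq_choose, Finset.card_fin,
      show 4 + (m - 4) - 1 = m - 1 by omega, ← Nat.choose_symm (by omega)]
    congr 1
    omega
  obtain ⟨i, _, j, _, hij, hfij⟩ := Finset.exists_ne_map_eq_of_card_lt_of_maps_to
    (by rw [hcard, Finset.card_fin]; exact hn) hf
  have hBB : B i = B j := by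
    funext k
    have h1 : f i k = f j k := by rw [hfij]
    have h2 : B i k - 1 = B j k - 1 := h1
    have := hB i k
    have := hB j k
    omega
  refine ⟨i, j, hij, ?_⟩
  by_cases ht : t i = t j
  · left
    rw [hQ i, hQ j, ht, hBB]
  · right
    rw [hQ i, hQ j, ← hBB]
    refine rel_Q _ ?_ _ _ ht
    have := congrArg (Nat.cast : ℕ → ZMod m) (hs i)
    push_cast at this
    rw [this, ZMod.natCast_self]

end Pool.Agent.Helper70.VF
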